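import Pool.Agent.P.MP_2ce3e7_ag.Tpx.Mod
import Pool.Agent.P.MP_2ce3e7_ag.Pav.Down
import Pool.Agent.P.MP_2ce3e7_ag.Pav.Res

/-! From the diagonal modulo exterior products to the three conclusions. -/

set_option autoImplicit false
set_option linter.unusedSectionVars false

open Function Polynomial
open scoped TensorProduct LaurentPolynomial

noncomputable section

namespace Pool.Agent.Tpx

open Pool.Agent.CXD Pool.Agent.Pav

variable {k A σ : Type} [Field k] [Fintype k] [CommRing A] [Algebra k A] [Fintype σ]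
  {𝒜 : ℤ → Set A} {z : σ → A} {θ : A →ₐ[k] A[T;T⁻¹]} [Gd 𝒜] [Gk k 𝒜] [IsNoetherianRing A]
  [IsNoetherianRing (A ⊗[k] A)] {bx : G1 𝒜 z →ₗ[ℚ] G1 𝒜 z →ₗ[ℚ] G2 k 𝒜 z}
  {T₁ : Module.End ℚ (G1 𝒜 z)} {T₂ : Module.End ℚ (G2 k 𝒜 z)} {Δ : GM (tg k 𝒜 𝒜)} {δ : Δ.M}

variable (k 𝒜 z) in
/-- a polynomial without power roots sends the diagonal to a sum of exterior products -/
def Dc : Prop :=
  ∀ ⦃θ : A →ₐ[k] A[T;T⁻¹]⦄ ⦃Δ : GM (tg k 𝒜 𝒜)⦄ ⦃δ : Δ.M⦄, Std 𝒜 z θ → Dg θ Δ δ →
    ∀ ⦃bx : G1 𝒜 z →ₗ[ℚ] G1 𝒜 z →ₗ[ℚ] G2 k 𝒜 z⦄ ⦃T₂ : Module.End ℚ (G2 k 𝒜 z)⦄,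
      IsX k z bx → IsT2 k z T₂ → ∃ P, NP (Fintype.card k) P ∧ ∃ (n : ℕ) (u v : Fin n → G1 𝒜 z),
        aeval T₂ P (ucl _ Δ) = ∑ i, bx (u i) (v i)

theorem dc_of {L B : Type} [Field L] [Fintype L] [Algebra k L] [CommRing B] [Algebra L B]
    [Algebra k B] [IsScalarTower k L B] {ℬ : ℤ → Set B} [Gd ℬ] [Gk L ℬ] {w : σ → B}
    {θ' : B →ₐ[L] B[T;T⁻¹]} {ι : A →+* B} {κ : A ⊗[k] A →+* B ⊗[L] B} {s : B →+* B}
    (D : Dat 𝒜 ℬ ι κ s) (h' : Std ℬ w θ') (hw : ∀ i, ι (z i) = w i) (f1 : ι.Finite)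
    (f2 : κ.Finite) (hs : s ^ Module.finrank k L = 1)
    (bc : ∀ (Y : GM (tg k 𝒜 𝒜)) y m, Cy Y y (gI k z m) → ∃ (Y' : GM (tg L ℬ ℬ)) (y' : Y'.M),
      Cy Y' y' (gI L w m) ∧ ∀ l, GAdd l → l (rs D.h2 Y') = Module.finrank k L * l Y)
    (hD : DB L ℬ w) : Dc k 𝒜 z := by
  intro θ Δ δ h hd bx T₂ hx h₂
  obtain ⟨T₁, h₁⟩ := h.exists_verT (hm_frb (k := k) card_smul_eq_zero)
  have he : Module.finrank k L ≠ 0 := Module.finrank_pos.ne'
  have := h'.finiteType
  have : IsNoetherianRing B := Algebra.FiniteType.isNoetherianRing L B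
  have := noeth_tensor' L B B
  have : Algebra.FiniteType k B := .trans (S := L) inferInstance inferInstance
  let E : Submodule ℚ (G2 k 𝒜 z) := Submodule.span ℚ {y | ∃ u v, y = bx u v}
  have hE : ∀ v ∈ E, T₂ v ∈ E := fun v hv => by
    have h0 : E ≤ E.comap T₂ := Submodule.span_le.2 (by
      rintro _ ⟨u, w, rfl⟩
      exact Submodule.subset_span ⟨u, T₁ w, h.T2_bx hx h₁ h₂ u w⟩)
    exact h0 hv
  have fs : ∀ i : ℕ, (s ^ i).Finite := fun i => RingHom.Finite.of_surjective _ fun b => by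
    obtain ⟨e, h3⟩ := Nat.exists_eq_add_one_of_ne_zero he
    refine ⟨(s ^ (i * e)) b, ?_⟩
    rw [← RingHom.comp_apply, ← RingHom.mul_def, ← pow_add, add_comm, ← Nat.mul_succ,
      Nat.succ_eq_add_one, ← h3, mul_comm, pow_mul, hs, one_pow]
    rfl
  have g1 : ∀ {M : GM ℬ}, Module.Finite B M.M → Module.Finite A (rs D.h1 M).M := fun hM =>
    (isRes_rs _ _).finite' hM f1
  have g2 : ∀ {Y : GM (tg L ℬ ℬ)}, Module.Finite (B ⊗[L] B) Y.M →
      Module.Finite (A ⊗[k] A) (rs D.h2 Y).M := fun hY => (isRes_rs _ _).finite' hY f2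
  have g3 : ∀ (i : ℕ) {N M : GM ℬ}, Module.Finite B N.M → Module.Finite B M.M →
      Module.Finite (A ⊗[k] A) (D.bx i N M).M := fun i _ _ hN hM =>
    g2 (gbox_finite hN ((isRes_rs _ _).finite' hM (fs i)))
  have n2 : ∀ {Y : GM (tg L ℬ ℬ)}, Nil (Set.range (zz L w)) Y.M →
      Nil (Set.range (zz k z)) (rs D.h2 Y).M := fun hn => (isRes_rs _ _).nil hn (by
    rintro _ ⟨p, rfl⟩
    exact ⟨_, ⟨p, rfl⟩, 1, by rw [pow_one, zz, zz, D.tm, hw, hw], one_pos⟩)
  have hφ : Hm (frb k B) ℬ ℬ (Fintype.card k • AddMonoidHom.id ℤ) := hm_frb card_smul_eq_zero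
  obtain ⟨S, hS⟩ := exists_pwT hφ (fun _ => rfl) Fintype.card_pos (frobAlg_finite k B)
    (Set.range w)
  have box : ∀ N M : GM ℬ, Module.Finite B N.M → Module.Finite B M.M →
      ucl _ (D.bx (Module.finrank k L) N M) ∈ sat (Fintype.card k) hE := fun N M hN hM => by
    have hr : ∀ i : ℕ, ∃ r : G1 ℬ w →ₗ[ℚ] G2 k 𝒜 z, ∀ M : GM ℬ, Module.Finite B M.M →
        r (ucl _ M) = ucl _ (D.bx i N M) := fun i =>
      exists_ulin (fun M => ucl _ (D.bx i N M))
        (fun M₁ M₂ M₃ h2 hs => ucl_ses (g3 i hN h2) ((isRes_rs _ _).ses (isRes_rs _ _)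
          (isRes_rs _ _) (gbox_ses_right N
            ((isRes_rs _ _).ses (isRes_rs _ _) (isRes_rs _ _) hs))))
        fun M _ hn => ucl_nil (n2 (nil_zz_right (nil_gbox_right_EB1 N ((isRes_rs _ _).nil hn (by
          rintro _ ⟨p, rfl⟩
          exact ⟨_, ⟨p, rfl⟩, 1, by rw [pow_one, ← hw, D.fx], one_pos⟩)))))
    choose r hr using hr
    rw [← hr _ M hM]
    refine all_sat hE he (h'.pos_pw hφ (fun _ => rfl) Fintype.card_pos (frobAlg_finite k B) hS)
      (fun i v => ?_) (fun v => ?_) (fun i => ug_ext fun M hM => ?_) _ _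
    · refine LinearMap.congr_fun (f := r i ∘ₗ S) (g := T₂ ∘ₗ r (i + 1)) (ug_ext fun M hM => ?_) v
      have hR := res_finite hφ (frobAlg_finite k B) M hM
      rw [LinearMap.comp_apply, LinearMap.comp_apply, hS M hM, hr _ _ hR, hr _ _ hM,
        h₂ _ (g3 _ hN hM)]
      obtain ⟨j, hj⟩ := isRes_ver hφ M
      obtain ⟨J, hJ⟩ := D.ver i N (fun _ => rfl) hφ hj
      obtain ⟨J', hJ'⟩ := isRes_ver (hm_Fr (k := k) (𝒜 := 𝒜) (ℬ := 𝒜) card_smul_eq_zero)
        (D.bx (i + 1) N M)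
      exact (ucl_eq fun l hl _ => hJ'.val hl hJ (g3 _ hN hR)).symm
    · rw [← LinearMap.sum_apply]
      refine ucl_ind (F := E.comap _) (fun M hM => ?_) v
      refine Submodule.subset_span ⟨ucl _ (rs D.h1 N), ucl _ (rs D.h1 M), ?_⟩
      rw [hx _ _ (g1 hN) (g1 hM), LinearMap.sum_apply,
        Finset.sum_congr rfl fun i _ => hr i M hM]
      refine sub_eq_zero.1 ((Module.forall_dual_apply_eq_zero_iff ℚ _).1 fun lam => ?_)
      rw [map_sub, map_sum, sub_eq_zero]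
      exact (D.split (gadd_ucl lam) (gbox_finite (g1 hN) (g1 hM))).symm
    · have e : ∀ {a b : B →+* B} (_ : a = b) (ha : Hm a ℬ ℬ (AddMonoidHom.id ℤ))
          (hb : Hm b ℬ ℬ (AddMonoidHom.id ℤ)), rs ha M = rs hb M := by
        rintro _ _ rfl _ _
        rfl
      rw [hr _ M hM, hr _ M hM, Dat.bx, Dat.bx, e (by rw [pow_add, hs, mul_one]) _ (D.hs i)]
  obtain ⟨P, hP, hm⟩ : ucl _ Δ ∈ sat (Fintype.card k) hE := by
    refine of_rec hE (e := Module.finrank k L) fun lam hl p hp hrec => ?_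
    choose Y y hY using fun a : ℕ => h.exists_graph (Fintype.card k ^ (Module.finrank k L * a))
    choose Y' y' hY' hv using fun a => bc _ _ _ (hY a)
    have hc := Module.card_eq_pow_finrank (K := k) (V := L)
    have hv' : ∀ a, lam (ucl _ (rs D.h2 (Y' a))) =
        Module.finrank k L * lam ((T₂ ^ (Module.finrank k L * a)) (ucl _ Δ)) := fun a => by
      rw [h.graph_val hd _ (hY a) h₂]
      exact hv a _ (gadd_ucl lam)
    have := hD (fun Y => lam (ucl _ (rs D.h2 Y)))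
      (fun _ _ _ hN hs => gadd_ucl lam _ _ _ (g2 hN)
        ((isRes_rs _ _).ses (isRes_rs _ _) (isRes_rs _ _) hs))
      (fun Y _ _ hn => (congrArg lam (ucl_nil (n2 hn))).trans (map_zero _))
      (fun N M hN hM => by
        have e : ∀ {a : B →+* B} (_ : a = 1) (ha : Hm a ℬ ℬ (AddMonoidHom.id ℤ)),
            rs ha M = M := by
          rintro _ rfl _
          rfl
        have := hl _ (box N M hN hM)
        rwa [Dat.bx, e hs] at this)
      Y' y' (fun a => by rw [hc, ← pow_mul]; exact hY' a) p (hc ▸ hp) fun n => by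
        have := congrArg ((Module.finrank k L : ℚ) * ·) (hrec n)
        simp only [Polynomial.sum, Finset.mul_sum, mul_zero] at this
        simp only [hv', Polynomial.sum, mul_left_comm _ (Module.finrank k L : ℚ), this]
    have h0 := (hv' 0).symm.trans this
    rw [mul_zero, pow_zero] at h0
    exact (mul_eq_zero.1 h0).resolve_left (Nat.cast_ne_zero.2 he)
  obtain ⟨n, f, g, hs⟩ := Submodule.mem_span_set'.1 hm
  choose u v huv using fun i => (g i).2
  refine ⟨P, hP, n, fun i => f i • u i, v, ?_⟩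
  rw [← hs]
  refine Finset.sum_congr rfl fun i _ => ?_
  rw [huv i, map_smul, LinearMap.smul_apply]

theorem Dc.tate (hD : Dc k 𝒜 z) (h : Std 𝒜 z θ)
    (hs : ∀ i, Algebra.Smooth k (A ⧸ Ideal.span {z i - 1})) (j : ℕ) : Tate k 𝒜 z j := by
  have ha := h.atl hs
  have hr := h.rgl ha
  obtain ⟨Δ, δ, hd⟩ := h.exists_dg
  obtain ⟨β, hβ⟩ := h.exists_beta hr
  obtain ⟨bx, hx⟩ := exists_bx (k := k) (𝒜 := 𝒜) z
  obtain ⟨T₁, h₁⟩ := h.exists_verT (hm_frb (k := k) card_smul_eq_zero)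
  obtain ⟨T₂, h₂⟩ := h.exists_T2
  obtain ⟨P, hP, n, u, v, hδ⟩ := hD h hd hx h₂
  obtain ⟨lam, hl, hl'⟩ := h.exists_lam hr (h.rgl2 ha) hd hx hβ
  have hact := h.act_eq hr hd hx h₁ h₂ hβ hδ
  obtain ⟨hfin, hrec⟩ := lin_main (h.pos_all _ h₁) hP (h.T2_bx hx h₁ h₂) hl hδ hact
  have hnd : ∀ x, (∀ y, β x y = 0) → x = 0 := fun x hx => hP.inj (h.pos_all _ h₁) (by
    rw [map_zero, hact]
    exact Finset.sum_eq_zero fun i _ => by rw [hβ.symm, hx, zero_smul])
  obtain ⟨D, hD, htr⟩ := trace_filt (T := T₁) (dimF k 𝒜 z) dimF_mono h.dimF_zero dimF_top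
    (fun j => (Fintype.card k : ℚ) ^ j) (h.dimF_step h₁)
  have hrk : ∀ i, Module.finrank ℚ (dimF k 𝒜 z i) = rkF k 𝒜 z i := fun i =>
    (h.numF_equiv hr hβ hnd i).elim fun e => e.finrank_eq
  have hQ : (1 : ℚ) < Fintype.card k := by exact_mod_cast Fintype.one_lt_card
  have hn : ∀ s, lam ((T₂ ^ (s + 1)) (ucl _ Δ)) = npt k z (Fintype.card k ^ (s + 1)) := fun s => by
    obtain ⟨Y, e, hY⟩ := h.exists_graph (Fintype.card k ^ (s + 1))
    obtain ⟨V, w, hV⟩ := h.exists_fix (Fintype.card k ^ (s + 1))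
    obtain ⟨V', w', hV'⟩ := h.exists_cy (H := {a | (∃ c, a ∈ cl 𝒜 c) ∧
      ∀ x : Fx k z (Fintype.card k ^ (s + 1)), x.1 a = 0}) fun a ha => ha.1
    rw [h.graph_val hd _ hY h₂, hl' Y hY.finite (h.tn ha hd s.succ_pos hY), h.fix_val hd hY hV,
      h.sat_val s.succ_pos hV hV', h.count s.succ_pos hV']
  refine ⟨(h.numF_equiv hr hβ hnd (j + 1)).elim fun e => Module.Finite.equiv e, ?_⟩
  obtain ⟨a, b, hb, hab⟩ := series_final (n := fun s => lam ((T₂ ^ s) (ucl _ Δ))) (P := P)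
    (c := fun j => (Fintype.card k : ℚ) ^ j) (ρ := rnk k 𝒜 z) (D := D)
    (pow_right_injective₀ (by linarith) hQ.ne') (fun j => by positivity)
    (fun i hi => by rw [rnk, ← hrk, ← hrk, hD i hi, sub_self]) (j := j)
    (hP _ (pw_card j)) fun s => by
      refine Eq.trans ?_ (hrec s)
      simp only [htr, rnk, hrk]
  exact ⟨a, b, hb, by simpa only [hn] using hab⟩

theorem Dc.act (h : Std 𝒜 z θ) (hd : Dg θ Δ δ) (hx : IsX k z bx) (h₁ : IsT1 k z T₁)
    (h₂ : IsT2 k z T₂) {P : ℚ[X]} {n : ℕ} {u v : Fin n → G1 𝒜 z}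
    (hP : aeval T₂ P (ucl _ Δ) = ∑ i, bx (u i) (v i)) {V : GM 𝒜} (hV : QL z V) :
    ∃ b : G1 𝒜 z →ₗ[ℚ] ℚ, (∀ W : GM 𝒜, Module.Finite A W.M → b (ucl _ W) = pair k W V) ∧
      aeval T₁ P (ucl _ V) = ∑ i, b (u i) • v i := by
  have := h.finiteType
  obtain ⟨h1, h2⟩ := ql_iff.1 hV
  obtain ⟨κ, hκ⟩ := h.exists_act hV
  have ha : ∀ lam, κ lam ∘ₗ T₂ = κ (lam ∘ₗ T₁) := fun lam => ug_ext fun Y hY => by
    rw [LinearMap.comp_apply, h₂ Y hY,
      hκ _ (verF k 𝒜 𝒜 Y) (res_finite (hm_Fr card_smul_eq_zero) (Fr_finite k A A) _ hY),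
      hκ _ _ hY,
      h.cor_ver (gadd_ucl lam) h1 hY]
    exact (h.sv_lin (gadd_ucl (lam ∘ₗ T₁)) (gadd_ucl lam) (s := 1) (t := 0)
      (fun M hM => by rw [LinearMap.comp_apply, h₁ M hM, one_mul, zero_mul, add_zero])
      (tens_finite h1 hY)).trans (by simp [cor])
  have hp : ∀ (m : ℕ) lam, κ lam ∘ₗ (T₂ ^ m) = κ (lam ∘ₗ (T₁ ^ m)) := fun m => by
    induction m with
    | zero => intro lam; simp [Module.End.one_eq_id]
    | succ m ih =>
      intro lam
      rw [pow_succ', pow_succ', Module.End.mul_eq_comp, Module.End.mul_eq_comp,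
        ← LinearMap.comp_assoc, ← LinearMap.comp_assoc, ha, ih]
  have hb : ∀ (Q : ℚ[X]) lam, κ lam ∘ₗ aeval T₂ Q = κ (lam ∘ₗ aeval T₁ Q) := fun Q lam => by
    induction Q using Polynomial.induction_on' with
    | add p q hp hq => simp only [map_add, LinearMap.comp_add, hp, hq]
    | monomial m a =>
      simp only [aeval_monomial, ← Algebra.smul_def, LinearMap.comp_smul, map_smul, hp]
  have hc : ∀ lam (W M : GM 𝒜), Module.Finite A W.M → Module.Finite A M.M →
      κ lam (bx (ucl _ W) (ucl _ M)) = pair k W V * lam (ucl _ M) := fun lam W M hW hM => by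
    rw [hx W M hW hM, hκ _ _ (gbox_finite hW hM), cor, h.sv_box (gadd_ucl lam) hW h1 hM]
  obtain ⟨b, hb0⟩ := exists_form' (gadd_tid h.gadd_chi h.vn_chi hV) (vn_tid h.vn_chi hV.1)
  have hb' : ∀ W : GM 𝒜, Module.Finite A W.M → b (ucl _ W) = pair k W V := fun W hW =>
    (hb0 W hW).trans (pair_eq W V).symm
  refine ⟨b, hb', sub_eq_zero.1 ((Module.forall_dual_apply_eq_zero_iff ℚ _).1 fun lam => ?_)⟩
  have hc1 : bx.compr₂ (κ lam) = b.smulRight lam :=
    ug_ext fun W hW => ug_ext fun M hM => by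
      change κ lam (bx _ _) = b _ * lam _
      rw [hc lam W M hW hM, hb' W hW]
  have hc' : ∀ a c, κ lam (bx a c) = b a * lam c := fun a c =>
    LinearMap.congr_fun (LinearMap.congr_fun hc1 a) c
  have e1 := LinearMap.congr_fun (hb P lam) (ucl _ Δ)
  rw [LinearMap.comp_apply, hP, hκ _ _ hd.finite, cor,
    h.sv_dg hd (gadd_ucl _) (vn_ucl _) h1, map_sum] at e1
  rw [map_sub, sub_eq_zero, map_sum]
  refine e1.symm.trans (Finset.sum_congr rfl fun i _ => ?_)
  rw [hc', map_smul, smul_eq_mul]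

theorem Dc.numTors (hD : Dc k 𝒜 z) (h : Std 𝒜 z θ) : NumTors k 𝒜 z := fun x hx h0 => by
  obtain ⟨Δ, δ, hd⟩ := h.exists_dg
  obtain ⟨bx, hb⟩ := exists_bx (k := k) (𝒜 := 𝒜) z
  obtain ⟨T₁, h₁⟩ := h.exists_verT (hm_frb (k := k) card_smul_eq_zero)
  obtain ⟨T₂, h₂⟩ := h.exists_T2
  obtain ⟨P, hP, n, u, v, hδ⟩ := hD h hd hb h₂
  let c := FreeAbelianGroup.lift fun V : FGM 𝒜 => ucl (Set.range z) V.1
  have key : ∃ b : G1 𝒜 z →ₗ[ℚ] ℚ, (∀ W : GM 𝒜, Module.Finite A W.M → b (ucl _ W) =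
      FreeAbelianGroup.lift (fun V : FGM 𝒜 => pair k W V.1) x) ∧
      aeval T₁ P (c x) = ∑ i, b (u i) • v i := by
    clear h0
    induction hx using AddSubgroup.closure_induction with
    | mem y hy =>
      obtain ⟨V, hV, rfl⟩ := hy
      simpa [c] using Dc.act h hd hb h₁ h₂ hδ (ql_iff.2 ⟨V.2, hV⟩)
    | zero => exact ⟨0, by simp, by simp⟩
    | add x y _ _ ha hb =>
      obtain ⟨a, a1, a2⟩ := ha
      obtain ⟨b, b1, b2⟩ := hb
      exact ⟨a + b, fun W hW => by rw [LinearMap.add_apply, map_add, a1 W hW, b1 W hW], by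
        simp only [map_add, a2, b2, LinearMap.add_apply, add_smul, Finset.sum_add_distrib]⟩
    | neg x _ ha =>
      obtain ⟨a, a1, a2⟩ := ha
      exact ⟨-a, fun W hW => by rw [LinearMap.neg_apply, map_neg, a1 W hW], by
        simp only [map_neg, a2, LinearMap.neg_apply, neg_smul, Finset.sum_neg_distrib]⟩
  obtain ⟨b, b1, b2⟩ := key
  obtain rfl : b = 0 := ug_ext fun W hW => (b1 W hW).trans (h0 ⟨W, hW⟩)
  have hc : c x = 0 := hP.inj (h.pos_all _ h₁) (by simpa using b2)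
  refine exists_form (fun M hM hn => h.tors hM hn) x fun l l1 l2 => ?_
  obtain ⟨lam, hl⟩ := exists_form' l1 l2
  have e : FreeAbelianGroup.lift (fun V : FGM 𝒜 => l V.1) = lam.toAddMonoidHom.comp c :=
    FreeAbelianGroup.lift_ext _ _ fun V => by simpa [c] using (hl V.1 V.2).symm
  rw [e, AddMonoidHom.comp_apply, hc, map_zero]

theorem dc_push {L B : Type} [Field L] [Fintype L] [Algebra k L] [CommRing B] [Algebra L B]
    [Algebra A B] [Algebra k B] [IsScalarTower k A B] [IsScalarTower k L B]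
    [Algebra.IsPushout k L A B] {ℬ : ℤ → Set B} [Gd ℬ] [Gk L ℬ] (h : Dn.Cmp k L 𝒜 ℬ) {w : σ → B}
    {θ' : B →ₐ[L] B[T;T⁻¹]} (h' : Std ℬ w θ') (hw : ∀ i, algebraMap A B (z i) = w i)
    (hD : DB L ℬ w) : Dc k 𝒜 z := by
  obtain ⟨_, _, _, ha, hc⟩ := h.tens
  let s : B →ₐ[k] B := Algebra.pushoutDesc B
    ((IsScalarTower.toAlgHom k L B).comp (FiniteField.frobeniusAlgHom k L))
    (IsScalarTower.toAlgHom k A B) fun _ _ => mul_comm _ _
  have fx : ∀ (i : ℕ) a, (s ^ i) (algebraMap A B a) = algebraMap A B a := fun i a => by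
    induction i with
    | zero => rfl
    | succ i ih => rw [pow_succ', AlgHom.mul_apply, ih]; exact Algebra.pushoutDesc_right ..
  have fr : ∀ (i : ℕ) c, (s ^ i) (algebraMap L B c) =
      algebraMap L B (c ^ Fintype.card k ^ i) := fun i c => by
    induction i with
    | zero => rw [pow_zero, pow_zero, pow_one]; rfl
    | succ i ih =>
      rw [pow_succ', AlgHom.mul_apply, ih, pow_succ, pow_mul]
      exact Algebra.pushoutDesc_left ..
  have pw : ∀ (i : ℕ) b, ((s : B →+* B) ^ i) b = (s ^ i) b := fun i b => by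
    rw [RingHom.coe_pow, AlgHom.coe_pow]
    rfl
  have := h'.finiteType
  refine dc_of (ι := algebraMap A B) (κ := algebraMap (A ⊗[k] A) (B ⊗[L] B)) (s := s)
    ⟨⟨injective_id, fun c a ha => mem_cl (h.map c a ha)⟩,
      ⟨injective_id, fun c a ha => mem_cl (hc.map c a ha)⟩,
      fun i => ⟨injective_id, fun c b hb => ?_⟩, ha,
      fun c => (IsScalarTower.algebraMap_apply k A B c).symm.trans
        (IsScalarTower.algebraMap_apply k L B c), fun i a => (pw _ _).trans (fx i a),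
      fun i c => (pw _ _).trans (fr i c)⟩ h' hw
    (RingHom.finite_algebraMap.2 (push_fin k L A B))
    (RingHom.finite_algebraMap.2 (push_fin k L _ _)) (RingHom.ext fun b => ?_)
    (fun Y y m hY => ?_) hD
  · refine Bav.Desc.sp_le (H := (cl ℬ c).comap ((s : B →+* B) ^ i).toAddMonoidHom)
      (fun ω _ a => ?_) (h.dec c b hb)
    change ((s : B →+* B) ^ i) (_ * _) ∈ cl ℬ c
    rw [map_mul, pw, pw, fx, fr]
    exact (zero_add c).subst (motive := fun d => _ ∈ cl ℬ d)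
      (cl_mul (mem_cl (h.cst' _)) (mem_cl (h.map c a a.2)))
  · rw [pw]
    refine AlgHom.congr_fun (φ₂ := 1) (Algebra.IsPushout.algHom_ext (R := k) (S := L) (R' := A) B
      (AlgHom.ext fun a => fx _ a) (AlgHom.ext fun c => (fr _ c).trans ?_)) b
    rw [← Module.card_eq_pow_finrank, FiniteField.pow_card]
    rfl
  · obtain ⟨b1, b2⟩ := Dn.cy_bc (B := B ⊗[L] B) hY.gen hY.ann
    refine ⟨hc.bc Y, 1 ⊗ₜ y, ⟨((hc.form_bc Y).gr 0 y).symm.trans (congrArg _ hY.hom), b1,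
      fun β => (b2 β).trans ?_⟩, fun l hl => ?_⟩
    · rw [gI, gI, Ideal.map_span, ← Set.range_comp]
      simp only [comp_def, map_sub, ha, map_pow, hw]
    · obtain ⟨n, j, hm, hj, hr⟩ := (hc.form_bc Y).up (L := ⊤) hc.cst' le_top
      rw [IntermediateField.finrank_bot, one_mul, IntermediateField.finrank_top'] at hm
      subst hm
      have := hY.finite
      let f : (Y.pi (Module.finrank k L)).M →ₗ[A ⊗[k] A] (rs ⟨injective_id, fun c a ha =>
        mem_cl (hc.map c a ha)⟩ (hc.bc Y)).M := ⟨⟨j, j.map_add⟩, hj.lin⟩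
      have hb : Bijective f := ⟨hj.inj, fun y => hr.ge ((hc.form_bc Y).top y)⟩
      exact (hl.congr (Module.Finite.of_surjective f hb.2) (f := f) hj.gr hb).symm.trans
        (hl.pi this _)

open MvPolynomial in
theorem hom_map {k L τ : Type} [Field k] [Field L] (φ : k →+* L) {J : Ideal (MvPolynomial τ k)}
    (h : ∀ d, ∀ f ∈ J, homogeneousComponent d f ∈ J) : ∀ d, ∀ f ∈ J.map (MvPolynomial.map φ),
      homogeneousComponent d f ∈ J.map (MvPolynomial.map φ) := by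
  intro d f hf
  have key : ∀ g : MvPolynomial τ L, ∀ d, homogeneousComponent d (g * f) ∈
      J.map (MvPolynomial.map φ) := by
    induction hf using Submodule.span_induction with
    | mem x hx =>
      obtain ⟨x, hx, rfl⟩ := hx
      intro g d
      rw [← sum_homogeneousComponent g, ← sum_homogeneousComponent x, map_sum, Finset.sum_mul_sum,
        map_sum]
      refine Ideal.sum_mem _ fun a _ => ?_
      rw [map_sum]
      refine Ideal.sum_mem _ fun b _ => ?_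
      rw [homogeneousComponent_of_mem ((homogeneousComponent_isHomogeneous a g).mul
        ((homogeneousComponent_isHomogeneous b x).map φ))]
      split_ifs
      · exact Ideal.mul_mem_left _ _ (Ideal.mem_map_of_mem _ (h b x hx))
      · exact Ideal.zero_mem _
    | zero => simp
    | add x y _ _ hx hy => intro g d; rw [mul_add, map_add]; exact add_mem (hx g d) (hy g d)
    | smul a x _ hx => intro g d; rw [smul_eq_mul, ← mul_assoc]; exact hx _ d
  simpa using key 1 d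

section
open MvPolynomial

variable (k : Type) {τ : Type} [Field k] [Fintype k] [Fintype τ] (J : Ideal (MvPolynomial τ k))

/-- the three conclusions -/
def Out : Prop :=
  ((∀ i, Algebra.Smooth k ((MvPolynomial τ k ⧸ J) ⧸ Ideal.span {crd J i - 1})) →
    ∀ j, Tate k (hom J) (crd J) j) ∧ NumTors k (hom J) (crd J) ∧
    ∀ s, 0 < s → Par k (Sph k s) (hom J) (crd J)

variable {J} (hJ : ∀ d, ∀ f ∈ J, homogeneousComponent d f ∈ J)
include hJ

theorem out_of_db (L : Type) [Field L] [Fintype L] [Algebra k L]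
    (hL : DB L (hom (J.map (MvPolynomial.map (algebraMap k L))))
      (crd (J.map (MvPolynomial.map (algebraMap k L))))) : Out k J := by
  have hJ' := hom_map (algebraMap k L) hJ
  obtain ⟨θ, hθ⟩ := exists_std J hJ
  obtain ⟨θ', hθ'⟩ := exists_std _ hJ'
  obtain ⟨_, _, _, ha, hc⟩ := Dn.cmp_quot k L J _ rfl
  have := noeth_tensor' k (MvPolynomial τ k ⧸ J) (MvPolynomial τ k ⧸ J)
  have hD : Dc k (hom J) (crd J) :=
    dc_push hc hθ' (fun i => (ha _).trans (congrArg _ (MvPolynomial.map_X _ i))) hL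
  exact ⟨hD.tate hθ, hD.numTors hθ, fun s hs => p_Res k L J hJ s hs (p_Ev L _ hJ' hL s hs)⟩

theorem exits (Ω : Type) [Field Ω] [Algebra k Ω] [Algebra.IsAlgebraic k Ω]
    (H : DBo Ω (hom (J.map (MvPolynomial.map (algebraMap k Ω))))
      (crd (J.map (MvPolynomial.map (algebraMap k Ω)))) (Fintype.card k)) : Out k J := by
  obtain ⟨L, _, _, _, hL⟩ := p_Down k Ω J H
  exact out_of_db k hJ L hL

theorem exits_pow (Ω : Type) [Field Ω] [IsAlgClosed Ω] [Algebra k Ω] [Algebra.IsAlgebraic k Ω]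
    {N : ℕ} (hN : N ≠ 0) (H : DBo Ω (hom (J.map (MvPolynomial.map (algebraMap k Ω))))
      (crd (J.map (MvPolynomial.map (algebraMap k Ω)))) (Fintype.card k ^ N)) : Out k J := by
  obtain ⟨p, _, _, hp, -⟩ := FiniteField.card' k
  have : Fact p.Prime := ⟨hp⟩
  have : NeZero N := ⟨hN⟩
  let K := FiniteField.Extension k p N
  let := Fintype.ofFinite K
  let f : K →ₐ[k] Ω := IsAlgClosed.lift
  let : Algebra K Ω := f.toRingHom.toAlgebra
  have : IsScalarTower k K Ω := .of_algebraMap_eq fun c => (f.commutes c).symm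
  have : Algebra.IsAlgebraic K Ω := Algebra.IsAlgebraic.tower_top (K := k) K
  have e : ∀ (L : Type) [Field L] [Algebra K L] [Algebra k L] [IsScalarTower k K L],
      (J.map (MvPolynomial.map (algebraMap k K))).map (MvPolynomial.map (algebraMap K L)) =
        J.map (MvPolynomial.map (algebraMap k L)) := fun L _ _ _ _ => by
    rw [Ideal.map_map, IsScalarTower.algebraMap_eq k K L]
    congr 1
    exact RingHom.ext fun g => MvPolynomial.map_map _ _ g
  have hc : Fintype.card K = Fintype.card k ^ N := by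
    rw [Module.card_eq_pow_finrank (K := k), FiniteField.finrank_extension]
  obtain ⟨L, _, _, _, hL⟩ := p_Down K Ω (J.map (MvPolynomial.map (algebraMap k K)))
    ((congrArg₂ (fun I q => DBo Ω (hom I) (crd I) q) (e Ω) hc).mpr H)
  let : Algebra k L := ((algebraMap K L).comp (algebraMap k K)).toAlgebra
  have : IsScalarTower k K L := .of_algebraMap_eq fun _ => rfl
  exact out_of_db k hJ L ((congrArg (fun I => DB L (hom I) (crd I)) (e L)).mp hL)

end

end Pool.Agent.Tpx
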