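import Pool.Agent.P.MP_2ce3e7_ag.Pav.Defs

/-! Linear algebra for the descent of the decomposition of the diagonal. -/

set_option autoImplicit false

open Function Polynomial
open scoped TensorProduct

noncomputable section

namespace Pool.Agent.Tpx

open Pool.Agent.CXD

/-- no root is a power number -/
def NP (q : ℕ) (P : ℚ[X]) : Prop := ∀ ν, Pw q ν → P.eval ν ≠ 0

theorem pw_pos {q : ℕ} {ν : ℚ} (h : Pw q ν) : 0 < ν := by
  obtain ⟨p, e, μ, -, -, h1, rfl⟩ := h
  exact pow_pos h1 e

theorem pw_pow {q : ℕ} {ν : ℚ} (h : Pw q ν) (n : ℕ) : Pw (q ^ n) (ν ^ n) := by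
  obtain ⟨p, e, μ, hp, rfl, h1, rfl⟩ := h
  exact ⟨p, e * n, μ, hp, (pow_mul _ _ _).symm, h1, (pow_mul _ _ _).symm⟩

theorem NP.mul {q : ℕ} {P Q : ℚ[X]} (hP : NP q P) (hQ : NP q Q) : NP q (P * Q) := fun ν h => by
  rw [eval_mul]
  exact mul_ne_zero (hP ν h) (hQ ν h)

theorem NP.cop {q : ℕ} {P p : ℚ[X]} (hP : NP q P) (hp : p ∈ PwP q) : IsCoprime P p := by
  induction hp using Submonoid.closure_induction with
  | mem b hb =>
    obtain ⟨ν, hν, rfl⟩ := hb
    exact ((irreducible_X_sub_C ν).coprime_iff_not_dvd.2 fun h =>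
      hP ν hν (dvd_iff_isRoot.1 h)).symm
  | one => exact isCoprime_one_right
  | mul b c _ _ hb hc => exact IsCoprime.mul_right hb hc

variable {V W : Type*} [AddCommGroup V] [Module ℚ V] [AddCommGroup W] [Module ℚ W]

theorem NP.inj {q : ℕ} {P : ℚ[X]} {T : Module.End ℚ V} (hP : NP q P)
    (h : ∀ v, ∃ p ∈ PwP q, aeval T p v = 0) : Injective (aeval T P : Module.End ℚ V) := by
  rw [injective_iff_map_eq_zero]
  intro v hv
  obtain ⟨p, hp, hpv⟩ := h v
  obtain ⟨a, b, hab⟩ := hP.cop hp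
  have h1 : (aeval T (a * P + b * p) : Module.End ℚ V) v = v := by
    rw [hab]; simp
  rw [map_add, map_mul, map_mul, LinearMap.add_apply, Module.End.mul_apply, Module.End.mul_apply,
    hv, hpv] at h1
  simpa using h1.symm

theorem aeval_mem {T : Module.End ℚ W} {E : Submodule ℚ W} (hE : ∀ w ∈ E, T w ∈ E) (P : ℚ[X])
    {w : W} (hw : w ∈ E) : aeval T P w ∈ E := by
  induction P using Polynomial.induction_on' with
  | add p q hp hq => rw [map_add, LinearMap.add_apply]; exact E.add_mem hp hq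
  | monomial m a =>
    rw [aeval_monomial, ← Algebra.smul_def, LinearMap.smul_apply]
    refine E.smul_mem a ?_
    induction m with
    | zero => exact hw
    | succ m ih => rw [pow_succ', Module.End.mul_apply]; exact hE _ ih

theorem aeval_swap (T : Module.End ℚ W) (P Q : ℚ[X]) (w : W) :
    aeval T P (aeval T Q w) = aeval T Q (aeval T P w) := by
  rw [← Module.End.mul_apply, ← map_mul, mul_comm, map_mul, Module.End.mul_apply]

/-- the vectors that are sent into `E` by a polynomial without power roots -/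
def sat (q : ℕ) {T : Module.End ℚ W} {E : Submodule ℚ W} (hE : ∀ w ∈ E, T w ∈ E) :
    Submodule ℚ W where
  carrier := {w | ∃ P, NP q P ∧ aeval T P w ∈ E}
  add_mem' := by
    rintro a b ⟨P, hP, ha⟩ ⟨Q, hQ, hb⟩
    refine ⟨P * Q, hP.mul hQ, ?_⟩
    rw [map_add, map_mul, Module.End.mul_apply, Module.End.mul_apply]
    exact E.add_mem (aeval_swap T P Q a ▸ aeval_mem hE Q ha) (aeval_mem hE P hb)
  zero_mem' := ⟨1, fun ν _ => by simp, by simp⟩
  smul_mem' := by
    rintro c a ⟨P, hP, ha⟩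
    exact ⟨P, hP, by rw [map_smul]; exact E.smul_mem c ha⟩

variable {q : ℕ} {T : Module.End ℚ W} {E : Submodule ℚ W} (hE : ∀ w ∈ E, T w ∈ E)

theorem le_sat {w : W} (h : w ∈ E) : w ∈ sat q hE := ⟨1, fun ν _ => by simp, by simpa using h⟩

theorem sat_T (w : W) (h : w ∈ sat q hE) : T w ∈ sat q hE := by
  obtain ⟨P, hP, h⟩ := h
  refine ⟨P, hP, ?_⟩
  have := aeval_swap T P X w
  rw [aeval_X] at this
  rw [this]
  exact hE _ h

theorem sat_sat {P : ℚ[X]} (hP : NP q P) {w : W} (h : aeval T P w ∈ sat q hE) : w ∈ sat q hE := by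
  obtain ⟨Q, hQ, h⟩ := h
  exact ⟨Q * P, hQ.mul hP, by rwa [map_mul, Module.End.mul_apply]⟩

theorem step {e : ℕ} (he : e ≠ 0) {c : ℕ → W} {ν : ℚ} (hν : 0 < ν)
    (h1 : ∀ i, T (c (i + 1)) - ν • c i ∈ sat q hE) (h2 : ∑ i ∈ Finset.range e, c i ∈ E)
    (h3 : ∀ i, c (i + e) = c i) (m : ℕ) : c m ∈ sat q hE := by
  have key : ∀ j i, aeval T ((C ν⁻¹ * X) ^ j) (c (i + j)) - c i ∈ sat q hE := fun j => by
    induction j with
    | zero => intro i; simp
    | succ j ih =>
      intro i
      have a1 := aeval_mem (sat_T hE) (C ν⁻¹ * X) (ih (i + 1))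
      have a2 := (sat q hE).smul_mem ν⁻¹ (h1 i)
      have a3 := (sat q hE).add_mem a1 a2
      rw [map_sub, ← Module.End.mul_apply, ← map_mul, ← pow_succ', map_mul (aeval T), aeval_C,
        aeval_X, ← Algebra.smul_def, LinearMap.smul_apply, smul_sub, smul_smul,
        inv_mul_cancel₀ hν.ne', one_smul, sub_add_sub_cancel, add_right_comm, add_assoc] at a3
      exact a3
  refine sat_sat hE (P := ∑ i ∈ Finset.range e, (C ν⁻¹ * X) ^ (m + e - i)) (fun x hx => ?_) ?_
  · rw [eval_finsetSum]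
    refine (Finset.sum_pos (fun i _ => ?_) (Finset.nonempty_range_iff.2 he)).ne'
    rw [eval_pow, eval_mul, eval_C, eval_X]
    exact pow_pos (mul_pos (inv_pos.2 hν) (pw_pos hx)) _
  · have := (sat q hE).add_mem ((sat q hE).sum_mem fun i (_ : i ∈ Finset.range e) =>
      key (m + e - i) i) (le_sat hE h2)
    rw [Finset.sum_sub_distrib, sub_add_cancel] at this
    rw [map_sum, LinearMap.sum_apply]
    convert this using 2 with i hi
    rw [show i + (m + e - i) = m + e by have := Finset.mem_range.1 hi; omega, h3]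

theorem all_sat {e : ℕ} (he : e ≠ 0) {S : Module.End ℚ V} {r : ℕ → V →ₗ[ℚ] W}
    (h0 : ∀ v, ∃ p ∈ PosP, aeval S p v = 0) (h1 : ∀ i v, r i (S v) = T (r (i + 1) v))
    (h2 : ∀ v, ∑ i ∈ Finset.range e, r i v ∈ E) (h3 : ∀ i, r (i + e) = r i) (v : V) (m : ℕ) :
    r m v ∈ sat q hE := by
  obtain ⟨p, hp, hv⟩ := h0 v
  have key : ∀ v, (∀ i, r i (aeval S p v) ∈ sat q hE) → ∀ i, r i v ∈ sat q hE := by
    clear hv
    induction hp using Submonoid.closure_induction with
    | mem f hf =>
      obtain ⟨ν, hν, rfl⟩ := hf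
      intro v h
      refine step hE he hν (fun i => ?_) (h2 v) fun i => by rw [h3]
      have := h i
      rwa [map_sub, aeval_X, aeval_C, LinearMap.sub_apply, Module.algebraMap_end_apply, map_sub,
        map_smul, h1] at this
    | one => intro v h; simpa using h
    | mul f g _ _ ip iq =>
      intro v h
      exact iq v (ip _ fun i => by simpa only [map_mul, Module.End.mul_apply] using h i)
  exact key v (fun i => by rw [hv, map_zero]; exact zero_mem _) m

theorem of_rec {e : ℕ} {δ : W}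
    (h : ∀ lam : W →ₗ[ℚ] ℚ, (∀ w ∈ sat q hE, lam w = 0) → ∀ p ∈ PwP (q ^ e),
      (∀ n, (p.sum fun a c => c * lam ((T ^ (e * (a + n))) δ)) = 0) → lam δ = 0) :
    δ ∈ sat q hE := by
  let ev : ℚ[X] →ₗ[ℚ] W := (LinearMap.applyₗ δ) ∘ₗ (aeval T).toLinearMap
  have hev : ∀ P, ev P = aeval T P δ := fun _ => rfl
  let I : Ideal ℚ[X] :=
    { carrier := {P | aeval T P δ ∈ sat q hE}
      add_mem' := fun {a b} ha hb => by
        change aeval T (a + b) δ ∈ sat q hE
        rw [map_add]
        exact add_mem ha hb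
      zero_mem' := by
        change aeval T (0 : ℚ[X]) δ ∈ sat q hE
        rw [map_zero]
        exact zero_mem _
      smul_mem' := fun c a ha => by
        change aeval T (c * a) δ ∈ sat q hE
        rw [map_mul]
        exact aeval_mem (sat_T hE) c ha }
  refine sat_sat hE (P := Submodule.IsPrincipal.generator I) (fun ν hν h0 => ?_)
    (Submodule.IsPrincipal.generator_mem I)
  let f : ℚ[X] := X ^ e - C (ν ^ e)
  have h1 : δ ∈ sat q hE ⊔ LinearMap.range (ev ∘ₗ LinearMap.mulRight ℚ f) := by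
    refine mem_of_forms fun lam hl => h lam (fun w hw => hl w (Submodule.mem_sup_left hw))
      (X - C (ν ^ e)) (Submonoid.subset_closure ⟨_, pw_pow hν e, rfl⟩) fun n => ?_
    have h2 := hl _ (Submodule.mem_sup_right ⟨X ^ (e * n), rfl⟩)
    rw [LinearMap.comp_apply, LinearMap.mulRight_apply, hev, mul_sub, ← pow_add, mul_comm _ (C _),
      map_sub, map_mul, aeval_C, ← Algebra.smul_def, map_pow, map_pow, aeval_X,
      LinearMap.sub_apply, LinearMap.smul_apply, map_sub, map_smul, smul_eq_mul] at h2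
    rw [sub_eq_add_neg, ← C_neg, sum_add_index _ _ _ (by simp) (by intros; ring), sum_X_index,
      sum_C_index (by simp), zero_add, mul_add, mul_one, add_comm e]
    · linarith
    · simp
  obtain ⟨a, ha, _, ⟨g, rfl⟩, hb⟩ := Submodule.mem_sup.1 h1
  have h3 : 1 - g * f ∈ I := by
    change aeval T (1 - g * f) δ ∈ sat q hE
    rw [map_sub, map_one, LinearMap.sub_apply, Module.End.one_apply]
    exact (eq_sub_of_add_eq hb :) ▸ ha
  obtain ⟨u, hu⟩ := (Submodule.IsPrincipal.mem_iff_generator_dvd I).1 h3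
  have h4 := congrArg (Polynomial.eval ν) hu
  rw [eval_mul, h0, zero_mul] at h4
  simp [f] at h4

theorem lin_main {T : Module.End ℚ V} {T₂ : Module.End ℚ W} {bx : V →ₗ[ℚ] V →ₗ[ℚ] W}
    {β : V →ₗ[ℚ] V →ₗ[ℚ] ℚ} {lam : W →ₗ[ℚ] ℚ} {δ : W} {Q n : ℕ} {P : ℚ[X]} {u v : Fin n → V}
    (hpos : ∀ x, ∃ p ∈ PwP Q, aeval T p x = 0) (hP : NP Q P)
    (hbx : ∀ x y, T₂ (bx x y) = bx x (T y)) (hl : ∀ x y, lam (bx x y) = β x y)
    (hδ : aeval T₂ P δ = ∑ i, bx (u i) (v i))
    (ha : ∀ x, aeval T P x = ∑ i, β (u i) x • v i) :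
    Module.Finite ℚ V ∧ ∀ s, P.sum (fun m a =>
        a * (lam ((T₂ ^ (s + m)) δ) - LinearMap.trace ℚ V (T ^ (s + m)))) = 0 := by
  have hinj := hP.inj hpos
  have hmem : ∀ x, aeval T P x ∈ Submodule.span ℚ (Set.range v) := fun x => by
    rw [ha]
    exact Submodule.sum_mem _ fun i _ =>
      Submodule.smul_mem _ _ (Submodule.subset_span ⟨i, rfl⟩)
  have : Module.Finite ℚ (Submodule.span ℚ (Set.range v)) :=
    Module.Finite.span_of_finite ℚ (Set.finite_range v)
  have hfin : Module.Finite ℚ V :=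
    Module.Finite.of_injective (LinearMap.codRestrict _ (aeval T P) hmem)
      fun x y e => hinj (congrArg Subtype.val e)
  refine ⟨hfin, fun s => ?_⟩
  have hpw : ∀ (s : ℕ) x y, (T₂ ^ s) (bx x y) = bx x ((T ^ s) y) := by
    intro s x y
    induction s with
    | zero => rfl
    | succ s ih => rw [pow_succ', pow_succ', Module.End.mul_apply, Module.End.mul_apply, ih, hbx]
  have e1 : lam ((T₂ ^ s) (aeval T₂ P δ)) = ∑ i, β (u i) ((T ^ s) (v i)) := by
    rw [hδ, map_sum, map_sum]
    exact Finset.sum_congr rfl fun i _ => by rw [hpw, hl]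
  have e2 : LinearMap.trace ℚ V (T ^ s * aeval T P) = ∑ i, β (u i) ((T ^ s) (v i)) :=
    trace_sum (fun i => β (u i)) (fun i => (T ^ s) (v i)) fun x => by
      rw [Module.End.mul_apply, ha, map_sum]
      exact Finset.sum_congr rfl fun i _ => by rw [map_smul]
  have e3 := e1.trans e2.symm
  rw [aeval_eq_sum_range, aeval_eq_sum_range, LinearMap.sum_apply, map_sum,
    map_sum, Finset.mul_sum, map_sum, ← sub_eq_zero, ← Finset.sum_sub_distrib] at e3
  rw [sum_over_range _ (fun m => zero_mul _), ← e3]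
  refine Finset.sum_congr rfl fun m _ => ?_
  rw [LinearMap.smul_apply, map_smul, map_smul, mul_smul_comm, map_smul, pow_add, pow_add,
    Module.End.mul_apply, smul_eq_mul, smul_eq_mul, mul_sub]

/-- the components of the tensor square of a finite field extension -/
def gal (k L : Type) [Field k] [Fintype k] [Field L] [Algebra k L] :
    L ⊗[k] L →ₐ[L] (Fin (Module.finrank k L) → L) :=
  AlgHom.pi fun j => Algebra.TensorProduct.lift (AlgHom.id L L)
    (FiniteField.frobeniusAlgHom k L ^ (j : ℕ)) fun _ _ => Commute.all _ _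

theorem gal_tmul {k L : Type} [Field k] [Fintype k] [Field L] [Algebra k L] (a b : L)
    (j : Fin (Module.finrank k L)) :
    gal k L (a ⊗ₜ b) j = a * b ^ Fintype.card k ^ (j : ℕ) := by
  change a * (FiniteField.frobeniusAlgHom k L ^ (j : ℕ)) b = _
  rw [AlgHom.coe_pow, FiniteField.coe_frobeniusAlgHom, pow_iterate]

theorem gal_bij (k L : Type) [Field k] [Fintype k] [Field L] [Finite L] [Algebra k L] :
    Bijective (gal k L) := by
  have hs : Surjective (gal k L).toLinearMap := by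
    rw [← LinearMap.range_eq_top]
    by_contra hne
    obtain ⟨f, hf, hk⟩ := Submodule.exists_le_ker_of_lt_top _ (lt_top_iff_ne_top.2 hne)
    have li := (linearIndependent_algHom_toLinearMap k L L).comp _
      (FiniteField.bijective_frobeniusAlgHom_pow k L).1
    refine hf (LinearMap.pi_ext' fun j => LinearMap.ext_ring ?_)
    refine Fintype.linearIndependent_iff.1 li (fun j => f (Pi.single j 1))
      (LinearMap.ext fun c => ?_) j
    have h1 : f (gal k L (1 ⊗ₜ c)) = 0 := hk ⟨1 ⊗ₜ c, rfl⟩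
    rw [LinearMap.pi_apply_eq_sum_univ] at h1
    rw [LinearMap.sum_apply, LinearMap.zero_apply, ← h1]
    refine Finset.sum_congr rfl fun j _ => ?_
    rw [LinearMap.smul_apply, smul_eq_mul, smul_eq_mul, mul_comm]
    congr 1
    · exact (one_mul _).symm
    · congr 1
      funext i
      simp [Pi.single_apply, eq_comm]
  exact ⟨(LinearMap.injective_iff_surjective_of_finrank_eq_finrank (by simp)).2 hs, hs⟩

end Pool.Agent.Tpx
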