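import Pool.Agent.P.MP_2ce3e7_ag.Tpx.Lin

/-! Exterior products over a finite extension of the ground field. -/

set_option autoImplicit false
set_option linter.unusedSectionVars false

open Function
open scoped TensorProduct

noncomputable section

namespace Pool.Agent.Tpx

open Pool.Agent.CXD

section
variable {A B Γ : Type} [CommRing A] [CommRing B] [AddCommGroup Γ] {𝒜 : Γ → Set A}
  {ℬ : Γ → Set B} {φ : A →+* B}

/-- restriction of scalars along a map that keeps degrees -/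
def rs (h : Hm φ 𝒜 ℬ (AddMonoidHom.id Γ)) (N : GM ℬ) : GM 𝒜 where
  M := N.M
  mod := Module.compHom N.M φ
  π := N.π
  π_self := N.π_self
  π_ne := N.π_ne
  sum_π := N.sum_π
  π_smul c d a ha x := N.π_cl (h.mem c a ha) d x

theorem isRes_rs (h : Hm φ 𝒜 ℬ (AddMonoidHom.id Γ)) (N : GM ℬ) :
    IsRes φ id (rs h N) N (AddMonoidHom.id N.M) :=
  ⟨injective_id, fun _ _ => rfl, fun _ _ => rfl, fun _ _ => ⟨_, rfl⟩⟩

theorem add_split [IsNoetherianRing A] {l : GM 𝒜 → ℚ} (hl : GAdd l) {I : Type} [Fintype I]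
    {Y : GM 𝒜} (hY : Module.Finite A Y.M) {X : I → GM 𝒜} (Φ : ∀ i, Y.M →ₗ[A] (X i).M)
    (hg : ∀ i, IsG (Φ i)) (h1 : ∀ i x, ∃ y, Φ i y = x ∧ ∀ j, j ≠ i → Φ j y = 0)
    (h2 : ∀ y, (∀ i, Φ i y = 0) → y = 0) : l Y = ∑ i, l (X i) := by
  classical
  obtain ⟨K, hK⟩ : ∃ K : Finset I → Submodule A Y.M, ∀ s y, y ∈ K s ↔ ∀ i ∈ s, Φ i y = 0 :=
    ⟨fun s => ⨅ i ∈ s, LinearMap.ker (Φ i), fun s y => by simp⟩
  have st : ∀ s, St Y (K s) := fun s d x hx =>
    (hK s _).2 fun i hi => (hg i).ker d x ((hK s x).1 hx i hi)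
  have key : ∀ s, l Y = l (Y.sub (K s) (st s)) + ∑ i ∈ s, l (X i) := fun s => by
    induction s using Finset.induction_on with
    | empty =>
      rw [Finset.sum_empty, add_zero]
      exact (hl.congr hY (isG_subtype (st ∅)) ⟨Subtype.val_injective, fun y =>
        ⟨⟨y, (hK _ _).2 (by simp)⟩, rfl⟩⟩).symm
    | insert i s hi ih =>
      have le : K (insert i s) ≤ K s := fun y hy =>
        (hK _ _).2 fun j hj => (hK _ _).1 hy j (Finset.mem_insert_of_mem hj)
      have e1 : Surjective (Φ i ∘ₗ (K s).subtype) := fun x => by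
        obtain ⟨y, a, b⟩ := h1 i x
        exact ⟨⟨y, (hK _ _).2 fun j hj => b j fun e => hi (e ▸ hj)⟩, a⟩
      have e2 : Exact (Submodule.inclusion le) (Φ i ∘ₗ (K s).subtype) := fun y =>
        ⟨fun h => ⟨⟨y.1, (hK _ _).2 ((Finset.forall_mem_insert ..).2
          ⟨h, (hK _ _).1 y.2⟩)⟩, rfl⟩, by
            rintro ⟨x, rfl⟩
            exact (hK _ _).1 x.2 i (Finset.mem_insert_self _ _)⟩
      have e3 : IsG (M := Y.sub _ (st (insert i s))) (N := Y.sub _ (st s))
        (Submodule.inclusion le) := fun _ _ => Subtype.ext rfl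
      have := hl _ _ (X i) (Module.Finite.of_injective (K s).subtype Subtype.val_injective)
        ⟨_, _, e3, (hg i).comp (isG_subtype (st s)), Submodule.inclusion_injective le, e1, e2⟩
      rw [Finset.sum_insert hi, ih, this, add_assoc]
  have : Subsingleton (Y.sub (K Finset.univ) (st _)).M := ⟨fun x y => Subtype.ext
    ((h2 _ fun i => (hK _ _).1 x.2 i (Finset.mem_univ i)).trans
      (h2 _ fun i => (hK _ _).1 y.2 i (Finset.mem_univ i)).symm)⟩
  rw [key Finset.univ, hl.zero, zero_add]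

end

theorem ten_ext {k L Z : Type} [Field k] [Field L] [Algebra k L] [AddCommGroup Z]
    {f g : L ⊗[k] L →+ Z} (h : ∀ b a, f (b ⊗ₜ a) = g (b ⊗ₜ a)) (d : L ⊗[k] L) : f d = g d := by
  induction d with
  | zero => rw [map_zero, map_zero]
  | tmul a b => exact h a b
  | add x y hx hy => rw [map_add, map_add, hx, hy]

variable {k L A B : Type} [Field k] [Fintype k] [Field L] [Algebra k L] [CommRing A] [CommRing B]
  [Algebra k A] [Algebra L B] {𝒜 : ℤ → Set A} {ℬ : ℤ → Set B}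

variable (𝒜 ℬ) in
/-- the extension of the ground field and the conjugation -/
structure Dat (ι : A →+* B) (κ : A ⊗[k] A →+* B ⊗[L] B) (s : B →+* B) : Prop where
  h1 : Hm ι 𝒜 ℬ (AddMonoidHom.id ℤ)
  h2 : Hm κ (tg k 𝒜 𝒜) (tg L ℬ ℬ) (AddMonoidHom.id (ℤ × ℤ))
  hs : ∀ i : ℕ, Hm (s ^ i) ℬ ℬ (AddMonoidHom.id ℤ)
  tm : ∀ a a', κ (a ⊗ₜ a') = ι a ⊗ₜ ι a'
  al : ∀ c, ι (algebraMap k A c) = algebraMap L B (algebraMap k L c)
  fx : ∀ (i : ℕ) a, (s ^ i) (ι a) = ι a
  fr : ∀ (i : ℕ) c, (s ^ i) (algebraMap L B c) = algebraMap L B (c ^ Fintype.card k ^ i)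

variable [Gd 𝒜] [Gk k 𝒜] [Gd ℬ] [Gk L ℬ] {ι : A →+* B} {κ : A ⊗[k] A →+* B ⊗[L] B} {s : B →+* B}

/-- the twisted exterior product -/
def Dat.bx (h : Dat 𝒜 ℬ ι κ s) (i : ℕ) (N M : GM ℬ) : GM (tg k 𝒜 𝒜) :=
  rs h.h2 (gbox L N (rs (h.hs i) M))

/-- the exterior product over the small field -/
def Dat.kx (h : Dat 𝒜 ℬ ι κ s) (N M : GM ℬ) : GM (tg k 𝒜 𝒜) := gbox k (rs h.h1 N) (rs h.h1 M)

namespace Dat

variable (h : Dat 𝒜 ℬ ι κ s) (i : ℕ) (N M : GM ℬ)

/-- pure tensors -/
def tb : N.M →+ M.M →+ (h.bx i N M).M := gb L N (rs (h.hs i) M)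

/-- pure tensors -/
def kb : N.M →+ M.M →+ (h.kx N M).M := gb k (rs h.h1 N) (rs h.h1 M)

variable {i N M}

theorem tb_mv (c : L) (x : N.M) (y : M.M) : h.tb i N M (algebraMap L B c • x) y =
    h.tb i N M x (algebraMap L B (c ^ Fintype.card k ^ i) • y) := by
  rw [← h.fr]
  exact alg_gb_CWS3 (N := N) (M := rs (h.hs i) M) c x y

theorem tb_smul (a b : A) (x : N.M) (y : M.M) :
    (a ⊗ₜ[k] b : A ⊗[k] A) • h.tb i N M x y = h.tb i N M (ι a • x) (ι b • y) := by
  change κ (a ⊗ₜ b) • gb L N (rs (h.hs i) M) x y = _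
  rw [h.tm, ← congrArg (fun t => h.tb i N M (ι a • x) (t • y)) (h.fx i b)]
  rfl

theorem tb_π (c : ℤ × ℤ) (x : N.M) (y : M.M) :
    (h.bx i N M).π c (h.tb i N M x y) = h.tb i N M (N.π c.1 x) (M.π c.2 y) :=
  gbox_π (M := rs (h.hs i) M) c x y

theorem tb_ind {q : (h.bx i N M).M → Prop} (h0 : q 0) (h1 : ∀ x y, q (h.tb i N M x y))
    (h2 : ∀ u v, q u → q v → q (u + v)) (u : (h.bx i N M).M) : q u :=
  gbox_ind (N := N) (M := rs (h.hs i) M) h0 (fun _ w _ y _ _ => h1 w y) h2 u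

theorem tb_lift {X : Type} [AddCommGroup X] (F : N.M →+ M.M →+ X) (hF : ∀ (c : L) x y,
    F (algebraMap L B c • x) y = F x (algebraMap L B (c ^ Fintype.card k ^ i) • y)) :
    ∃ g : (h.bx i N M).M →+ X, ∀ x y, g (h.tb i N M x y) = F x y :=
  gbox_lift (N := N) (M := rs (h.hs i) M) F fun c x y => (hF c x y).trans (by rw [← h.fr]; rfl)

theorem kb_mv (c : k) (x : N.M) (y : M.M) :
    h.kb N M (ι (algebraMap k A c) • x) y = h.kb N M x (ι (algebraMap k A c) • y) :=
  alg_gb_CWS3 (N := rs h.h1 N) (M := rs h.h1 M) c x y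

theorem kb_smul (a b : A) (x : N.M) (y : M.M) :
    (a ⊗ₜ[k] b : A ⊗[k] A) • h.kb N M x y = h.kb N M (ι a • x) (ι b • y) := rfl

theorem kb_π (c : ℤ × ℤ) (x : N.M) (y : M.M) :
    (h.kx N M).π c (h.kb N M x y) = h.kb N M (N.π c.1 x) (M.π c.2 y) :=
  gbox_π (N := rs h.h1 N) (M := rs h.h1 M) c x y

theorem kb_ind {q : (h.kx N M).M → Prop} (h0 : q 0) (h1 : ∀ x y, q (h.kb N M x y))
    (h2 : ∀ u v, q u → q v → q (u + v)) (u : (h.kx N M).M) : q u :=
  gbox_ind (N := rs h.h1 N) (M := rs h.h1 M) h0 (fun _ w _ y _ _ => h1 w y) h2 u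

theorem kb_lift {X : Type} [AddCommGroup X] (F : N.M →+ M.M →+ X) (hF : ∀ (c : k) x y,
    F (ι (algebraMap k A c) • x) y = F x (ι (algebraMap k A c) • y)) :
    ∃ g : (h.kx N M).M →+ X, ∀ x y, g (h.kb N M x y) = F x y :=
  gbox_lift (N := rs h.h1 N) (M := rs h.h1 M) F hF

theorem exists_g (x : N.M) (y : M.M) : ∃ g : L ⊗[k] L →+ (h.kx N M).M, ∀ b a, g (b ⊗ₜ a) =
    h.kb N M (algebraMap L B a • x) (algebraMap L B b • y) := by
  refine ⟨TensorProduct.liftAddHom (AddMonoidHom.mk' (fun b => AddMonoidHom.mk'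
    (fun a => h.kb N M (algebraMap L B a • x) (algebraMap L B b • y)) fun a a' => by
      simp only [map_add, add_smul, AddMonoidHom.add_apply]) fun b b' => AddMonoidHom.ext
        fun a => by simp [add_smul]) fun c b a => ?_, fun _ _ => rfl⟩
  change h.kb N M (algebraMap L B a • x) (algebraMap L B (c • b) • y) =
    h.kb N M (algebraMap L B (c • a) • x) (algebraMap L B b • y)
  rw [Algebra.smul_def, Algebra.smul_def, map_mul, map_mul, mul_smul, mul_smul, ← h.al, h.kb_mv]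

end Dat

theorem Dat.exists_phi (h : Dat 𝒜 ℬ ι κ s) (i : ℕ) (N M : GM ℬ) :
    ∃ Φ : (h.kx N M).M →ₗ[A ⊗[k] A] (h.bx i N M).M, IsG Φ ∧
      ∀ x y, Φ (h.kb N M x y) = h.tb i N M x y := by
  obtain ⟨F, hF⟩ := h.kb_lift (h.tb i N M) fun c x y => by
    rw [h.al, h.tb_mv, ← h.fr, ← h.al, h.fx]
  refine ⟨⟨F, fun a u => ?_⟩, fun d u => ?_, hF⟩
  · change F (a • u) = a • F u
    induction a with
    | zero => rw [zero_smul, map_zero, zero_smul]
    | add c d hc hd => rw [add_smul, map_add, add_smul, hc, hd]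
    | tmul a b =>
      induction u using h.kb_ind with
      | h0 => rw [smul_zero, map_zero, smul_zero]
      | h1 x y => rw [h.kb_smul, hF, hF, h.tb_smul]
      | h2 u v hu hv => rw [smul_add, map_add, map_add, smul_add, hu, hv]
  · change F _ = (h.bx i N M).π d (F u)
    induction u using h.kb_ind with
    | h0 => simp only [map_zero]
    | h1 x y => rw [h.kb_π, hF, hF, h.tb_π]
    | h2 u v hu hv => simp only [map_add, hu, hv]

theorem Dat.split [Finite L] [IsNoetherianRing (A ⊗[k] A)] (h : Dat 𝒜 ℬ ι κ s)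
    {l : GM (tg k 𝒜 𝒜) → ℚ} (hl : GAdd l) {N M : GM ℬ}
    (hf : Module.Finite (A ⊗[k] A) (h.kx N M).M) :
    l (h.kx N M) = ∑ i ∈ Finset.range (Module.finrank k L), l (h.bx i N M) := by
  classical
  choose Φ hG hΦ using fun i : Fin (Module.finrank k L) => h.exists_phi i N M
  choose g hg using fun (x : N.M) (y : M.M) => h.exists_g x y
  choose ε hε using fun i : Fin (Module.finrank k L) => (gal_bij k L).2 (Pi.single i 1)
  have g1 : ∀ x y d b a, g x y (d * b ⊗ₜ a) = g (algebraMap L B a • x) (algebraMap L B b • y) d :=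
    fun x y d b a => ten_ext (f := (g x y).comp (AddMonoidHom.mulRight (b ⊗ₜ a))) (fun b' a' => by
      change g x y (_ * _) = _
      rw [Algebra.TensorProduct.tmul_mul_tmul, hg, hg, map_mul, map_mul, mul_smul, mul_smul]) d
  have g2 : ∀ j x y d, Φ j (g x y d) = h.tb j N M x (algebraMap L B (gal k L d j) • y) :=
    fun j x y d => by
      induction d with
      | zero => simp
      | tmul b a => rw [hg, hΦ, h.tb_mv, gal_tmul, smul_smul, ← map_mul, mul_comm]
      | add u v hu hv => simp only [map_add, Pi.add_apply, add_smul, hu, hv]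
  rw [Finset.sum_range]
  refine add_split hl hf Φ hG (fun i u => ?_) fun u hu => ?_
  · induction u using h.tb_ind with
    | h0 => exact ⟨0, map_zero _, fun _ _ => map_zero _⟩
    | h1 x y =>
      refine ⟨g x y (ε i), ?_, fun j hj => ?_⟩
      · rw [g2, hε, Pi.single_eq_same, map_one, one_smul]
      · rw [g2, hε, Pi.single_eq_of_ne hj, map_zero, zero_smul, map_zero]
    | h2 u v hu hv =>
      obtain ⟨a, a1, a2⟩ := hu
      obtain ⟨b, b1, b2⟩ := hv
      exact ⟨a + b, by rw [map_add, a1, b1], fun j hj => by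
        rw [map_add, a2 j hj, b2 j hj, add_zero]⟩
  · have hΨ : ∀ i : Fin (Module.finrank k L), ∃ Ψ : (h.bx i N M).M →+ _,
        ∀ x y, Ψ (h.tb i N M x y) = g x y (ε i) := fun i =>
      h.tb_lift (AddMonoidHom.mk' (fun x => AddMonoidHom.mk' (fun y => g x y (ε i))
        fun y y' => ten_ext (g := g x y + g x y') (fun b a => by
          rw [AddMonoidHom.add_apply, hg, hg, hg, smul_add, map_add]) _)
        fun x x' => AddMonoidHom.ext fun y => ten_ext (g := g x y + g x' y) (fun b a => by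
          rw [AddMonoidHom.add_apply, hg, hg, hg, smul_add, map_add, AddMonoidHom.add_apply]) _)
        fun c x y => by
          have e : ε i * (1 : L) ⊗ₜ[k] c = ε i * (c ^ Fintype.card k ^ (i : ℕ)) ⊗ₜ[k] (1 : L) :=
            (gal_bij k L).1 (funext fun j => by
              rw [map_mul, map_mul, hε, Pi.mul_apply, Pi.mul_apply, gal_tmul, gal_tmul]
              by_cases hj : j = i
              · rw [hj, one_pow, one_mul, mul_one]
              · rw [Pi.single_eq_of_ne hj, zero_mul, zero_mul])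
          have e1 := congrArg (g x y) e
          rwa [g1, g1, map_one, one_smul, one_smul] at e1
    choose Ψ hΨ using hΨ
    have key : ∀ u, ∑ i, Ψ i (Φ i u) = u := fun u => by
      induction u using h.kb_ind with
      | h0 => simp
      | h1 x y =>
        have e : ∑ i, ε i = (1 : L) ⊗ₜ[k] (1 : L) := (gal_bij k L).1 (by
          rw [map_sum, Finset.sum_congr rfl fun i _ => hε i, Finset.univ_sum_single]
          exact (map_one _).symm)
        simp only [hΦ, hΨ]
        rw [← map_sum, e, hg, map_one, one_smul, one_smul]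
      | h2 u v hu hv => simp only [map_add, Finset.sum_add_distrib, hu, hv]
    rw [← key u]
    exact Finset.sum_eq_zero fun i _ => by rw [hu, map_zero]

theorem Dat.ver (h : Dat 𝒜 ℬ ι κ s) (i : ℕ) (N : GM ℬ) {φ : B →+* B}
    (hφ : ∀ b, φ b = b ^ Fintype.card k) (hm : Hm φ ℬ ℬ (Fintype.card k • AddMonoidHom.id ℤ))
    {R M : GM ℬ} {j : R.M →+ M.M}
    (hj : IsRes φ (Fintype.card k • AddMonoidHom.id ℤ : ℤ →+ ℤ) R M j) :
    ∃ J : (h.bx i N R).M →+ (h.bx (i + 1) N M).M,
      IsRes (Fr k A A) (mu ℤ ℤ (Fintype.card k)) (h.bx i N R) (h.bx (i + 1) N M) J := by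
  have hc : ∀ c : L, φ (algebraMap L B (c ^ Fintype.card k ^ i)) =
      algebraMap L B (c ^ Fintype.card k ^ (i + 1)) :=
    fun c => by rw [hφ, ← map_pow, ← pow_mul, pow_succ]
  obtain ⟨J, hJ⟩ := h.tb_lift (i := i) (((h.tb (i + 1) N M).flip.comp j).flip) fun c w y => by
    change h.tb (i + 1) N M _ (j y) = h.tb (i + 1) N M w (j _)
    rw [hj.smul, hc, h.tb_mv]
  obtain ⟨p, hp, hp'⟩ := IsRes.exists_proj hm hj
  obtain ⟨P, hP⟩ := h.tb_lift (i := i + 1) (((h.tb i N R).flip.comp p).flip) fun c w y => by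
    change h.tb i N R _ (p y) = h.tb i N R w (p _)
    rw [← hc, hp', h.tb_mv]
  have hJ' : ∀ w y, J (h.tb i N R w y) = h.tb (i + 1) N M w (j y) := hJ
  have hP' : ∀ w y, P (h.tb (i + 1) N M w y) = h.tb i N R w (p y) := hP
  refine ⟨J, ?_, fun a x => ?_, fun c x => ?_, fun c x => ?_⟩
  · refine LeftInverse.injective (g := P) fun x => ?_
    induction x using h.tb_ind with
    | h0 => simp only [map_zero]
    | h1 w y => rw [hJ', hP', hp]
    | h2 u v hu hv => rw [map_add, map_add, hu, hv]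
  · induction a with
    | zero => rw [zero_smul, map_zero, map_zero, zero_smul]
    | add c d hc hd => rw [add_smul, map_add, map_add, add_smul, hc, hd]
    | tmul a b =>
      rw [Fr_tmul]
      induction x using h.tb_ind with
      | h0 => rw [smul_zero, map_zero, smul_zero]
      | h1 w y => rw [h.tb_smul, hJ', hJ', h.tb_smul, hj.smul, hφ, map_pow]
      | h2 u v hu hv => rw [smul_add, map_add, map_add, smul_add, hu, hv]
  · induction x using h.tb_ind with
    | h0 => simp only [map_zero]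
    | h1 w y =>
      rw [h.tb_π, hJ', hJ', h.tb_π, hj.π]
      rfl
    | h2 u v hu hv => simp only [map_add, hu, hv]
  · induction x using h.tb_ind with
    | h0 => exact ⟨0, by simp only [map_zero]⟩
    | h1 w y =>
      obtain ⟨y', hy'⟩ := hj.sur c.2 y
      refine ⟨h.tb i N R (N.π c.1 w) y', ?_⟩
      rw [hJ', h.tb_π, hy']
      rfl
    | h2 u v hu hv =>
      obtain ⟨u', hu'⟩ := hu
      obtain ⟨v', hv'⟩ := hv
      exact ⟨u' + v', by rw [map_add, map_add, hu', hv']⟩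

end Pool.Agent.Tpx
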